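import Pool.Agent.R949.WH.Show
import Pool.Agent.R949.WH.Four
set_option autoImplicit false

/-! # MP_0d9948_an: a weakly hypercyclic coanalytic Toeplitz operator on `H^4`

The unit circle is `Circ = ℝ/ℤ` (`t` stands for `exp (2 π i t) = fourier 1 t`), `mu` is normalised
Lebesgue measure, `Hardy p` is the closed subspace of `L^p` of the functions whose Fourier
coefficients of negative index vanish, and `IsHInf g G` says that `g` is a bounded holomorphic
function on the open unit disc whose radial limits are given by `G` almost everywhere. -/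

open MeasureTheory AddCircle Filter Topology Complex
open scoped ComplexConjugate ENNReal
namespace Pool.Agent.Results.MP_0d9948_an.WeaklyHypercyclicOnH4
open Pool.Agent.R949.WH

/-- a symbol with modulus 1 on a set of positive measure -/
theorem exists_symbol : ∃ (w : Circ → ℝ) (F : Circ → ℂ) (_ : IsSym w F) (E : Set Circ),
    (∀ t, 0 ≤ w t) ∧ (∀ t, w t ≤ 1) ∧ (0 < ∫ t, w t ∂mu) ∧ MeasurableSet E ∧ mu E ≠ 0 ∧
    ∀ t ∈ E, w t = 0 := by
  obtain ⟨P2, hP2⟩ := exists_riesz2
  set E : Set Circ := {t | ‖t‖ < 1 / 4} with hE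
  have hEo : IsOpen E := isOpen_lt continuous_norm continuous_const
  have hE0 : mu E ≠ 0 := (hEo.measure_pos mu ⟨0, by simp [hE]⟩).ne'
  have hEc : mu Eᶜ ≠ 0 := by
    have h1 : IsOpen {t : Circ | 1 / 4 < ‖t‖} := isOpen_lt continuous_const continuous_norm
    have h2 : (((1 / 2 : ℝ) : Circ)) ∈ {t : Circ | 1 / 4 < ‖t‖} := by
      show (1 / 4 : ℝ) < ‖((1 / 2 : ℝ) : Circ)‖
      rw [(AddCircle.norm_coe_eq_abs_iff (x := (1 / 2 : ℝ)) (1 : ℝ) one_ne_zero).2 (by norm_num)]
      norm_num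
    have h3 := h1.measure_pos mu ⟨_, h2⟩
    have h4 : {t : Circ | 1 / 4 < ‖t‖} ⊆ Eᶜ := by
      intro t ht
      have h5 : (1 / 4 : ℝ) < ‖t‖ := ht
      show ¬ (‖t‖ < 1 / 4)
      linarith
    exact (h3.trans_le (measure_mono h4)).ne'
  have hwm : Measurable (Eᶜ.indicator (1 : Circ → ℝ)) :=
    measurable_one.indicator hEo.measurableSet.compl
  have hw0 : ∀ t, 0 ≤ Eᶜ.indicator (1 : Circ → ℝ) t :=
    fun t => Set.indicator_nonneg (fun _ _ => zero_le_one) t
  have hw1 : ∀ t, Eᶜ.indicator (1 : Circ → ℝ) t ≤ 1 :=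
    fun t => Set.indicator_le_self' (fun _ _ => zero_le_one) t
  have hwa : ∀ t, |Eᶜ.indicator (1 : Circ → ℝ) t| ≤ 1 :=
    fun t => by rw [abs_of_nonneg (hw0 t)]; exact hw1 t
  refine ⟨Eᶜ.indicator (1 : Circ → ℝ), _, isSym hP2 hwm hwa (memLp_real hwm hwa), E, hw0, hw1, ?_,
    hEo.measurableSet, hE0, ?_⟩
  · rw [integral_indicator_one hEo.measurableSet.compl]
    exact ENNReal.toReal_pos hEc (measure_ne_top _ _)
  · intro t ht
    rw [Set.indicator_of_notMem (by simpa using ht)]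

/-- There is a bounded holomorphic `g` on the disc with `|g| >= 1` such that the coanalytic
Toeplitz operator `T f = P (conj g * f)` on `H^4`, where `P` is the Riesz projection of `L^4` onto
`H^4`, has an orbit which is dense for the weak topology of `H^4`. -/
theorem result :
    ∃ (g : ℂ → ℂ) (G : Circ → ℂ), IsHInf g G ∧ (∀ z ∈ Metric.ball (0 : ℂ) 1, 1 ≤ ‖g z‖) ∧
      ∃ T : Hardy 4 →L[ℂ] Hardy 4, CoanalyticToeplitz G T ∧ WeaklyHypercyclic T := by
  obtain ⟨P2, hP2⟩ := exists_riesz2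
  obtain ⟨P, hP⟩ := exists_riesz4
  obtain ⟨w, F, hs, E, hw0, hw1, hpos, hE, hE0, hwE⟩ := exists_symbol
  have hsys := sys_four hP hP2 hs hw0 hw1 hpos hE hE0 hwE
  exact fixed_show (p := 4) (by norm_num) (by simp) hP hs hw0 hw1 hsys

end Pool.Agent.Results.MP_0d9948_an.WeaklyHypercyclicOnH4
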